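import Pool.Agent.C4K.StNumB

/-!
# C4K, module NUB4: numbers for the linear statistic
-/

set_option autoImplicit false

noncomputable section

namespace Pool.Agent.C4K.H79

open Finset Pool.Agent.C4K

/-- `k` is large (depending on `B`) -/
structure Big (B : ℕ) (k : ℝ) : Prop where
  one : 1 ≤ k
  cst : 1000000000 * ((B : ℝ) + 1) ≤ k ^ (0.001 : ℝ)
  log : Real.log k ≤ k ^ (0.001 : ℝ)

theorem big_ev (B : ℕ) : ∃ k0 : ℝ, ∀ k, k0 ≤ k → Big B k := by
  have h1 : ∀ᶠ k : ℝ in Filter.atTop, 1000000000 * ((B : ℝ) + 1) ≤ k ^ (0.001 : ℝ) :=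
    (tendsto_rpow_atTop (by norm_num : (0 : ℝ) < 0.001)).eventually
      (Filter.eventually_ge_atTop _)
  have h2 : ∀ᶠ k : ℝ in Filter.atTop, (1 : ℝ) ≤ k := Filter.eventually_ge_atTop 1
  have h3 := (isLittleO_log_rpow_atTop (by norm_num : (0 : ℝ) < 0.001)).def (c := 1) (by norm_num)
  obtain ⟨k0, hk0⟩ := Filter.eventually_atTop.1 (h1.and (h2.and h3))
  refine ⟨k0, fun k hk => ?_⟩
  obtain ⟨a1, a2, a3⟩ := hk0 k hk
  refine ⟨a2, a1, ?_⟩
  rw [Real.norm_of_nonneg (Real.log_nonneg a2),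
    Real.norm_of_nonneg (Real.rpow_nonneg (by linarith) _), one_mul] at a3
  exact a3

section
variable {B : ℕ} {k : ℝ} (hk : Big B k)
include hk

theorem kpos : 0 < k := lt_of_lt_of_le one_pos hk.one

theorem rle {a b : ℝ} (h : a ≤ b) : k ^ a ≤ k ^ b :=
  Real.rpow_le_rpow_of_exponent_le hk.one h

theorem rpos (a : ℝ) : 0 < k ^ a := Real.rpow_pos_of_pos (kpos hk) a

theorem rone {a : ℝ} (h : 0 ≤ a) : 1 ≤ k ^ a := Real.one_le_rpow hk.one h

theorem radd (a b : ℝ) : k ^ a * k ^ b = k ^ (a + b) := (Real.rpow_add (kpos hk) a b).symm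

/-- constants are absorbed by `k ^ 0.001`. -/
theorem cm {c x y : ℝ} (hc : c ≤ 1000000000 * ((B : ℝ) + 1)) (h : x + 0.001 ≤ y) :
    c * k ^ x ≤ k ^ y := by
  calc c * k ^ x ≤ k ^ (0.001 : ℝ) * k ^ x :=
        mul_le_mul_of_nonneg_right (hc.trans hk.cst) (rpos hk x).le
    _ = k ^ (0.001 + x) := radd hk _ _
    _ ≤ k ^ y := rle hk (by linarith)

/-- exponentials are smaller than powers. -/
theorem expl {A x : ℝ} (hA : A ≤ 1000000000 * ((B : ℝ) + 1)) (hA0 : 0 ≤ A) (hx : 0.002 ≤ x) :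
    Real.exp (-(k ^ x)) ≤ k ^ (-A) := by
  have h0 : k ^ (-A) = Real.exp (Real.log k * (-A)) := Real.rpow_def_of_pos (kpos hk) _
  rw [h0]
  apply Real.exp_le_exp.2
  have h1 : A * Real.log k ≤ k ^ (0.001 : ℝ) * k ^ (0.001 : ℝ) :=
    mul_le_mul (hA.trans hk.cst) hk.log (Real.log_nonneg hk.one) (rpos hk _).le
  rw [radd hk] at h1
  have h2 : k ^ (0.001 + 0.001 : ℝ) ≤ k ^ x := rle hk (by linarith)
  linarith

theorem c9 : (1000000000 : ℝ) ≤ 1000000000 * ((B : ℝ) + 1) := by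
  have : (0 : ℝ) ≤ B := Nat.cast_nonneg _
  linarith

theorem cm' {c x y : ℝ} (hc : c ≤ 1000000000) (h : x + 0.001 ≤ y) : c * k ^ x ≤ k ^ y :=
  cm hk (hc.trans (c9 hk)) h

theorem T_le : (kT k : ℝ) ≤ k ^ (0.476 : ℝ) := Nat.floor_le (rpos hk _).le

theorem T_ge : k ^ (0.476 : ℝ) ≤ (kT k : ℝ) + 1 := (Nat.lt_floor_add_one _).le

theorem T1_le : (kT k : ℝ) + 1 ≤ 2 * k ^ (0.476 : ℝ) := by
  have h1 := T_le hk
  have h2 := rone hk (a := 0.476) (by norm_num)
  linarith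

theorem kex_lo (a : ℕ) : (0.5 : ℝ) ≤ kex a := by
  unfold kex
  rcases lt_or_ge a 11 with h | h
  · interval_cases a <;> simp <;> norm_num
  · rw [List.getD_eq_default _ _ (by simpa using h)]
    norm_num

theorem tau_ge (a : ℕ) : k ^ kex a ≤ (kτ k a : ℝ) := Nat.le_ceil _

theorem tau_le (a : ℕ) : (kτ k a : ℝ) ≤ 2 * k ^ kex a := by
  have h1 := (Nat.ceil_lt_add_one (rpos hk (kex a)).le).le
  have h2 := rone hk (a := kex a) (by have := kex_lo hk a; linarith)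
  unfold kτ
  linarith

theorem z_le : kz k ≤ k ^ (-1.006 : ℝ) := by
  unfold kz kr
  rw [div_le_iff₀ (by positivity)]
  calc k ^ (-0.53 : ℝ) = k ^ (-1.006 : ℝ) * k ^ (0.476 : ℝ) := by
        rw [radd hk]; norm_num
    _ ≤ _ := mul_le_mul_of_nonneg_left (T_ge hk) (rpos hk _).le

theorem z_pos : 0 < kz k := by
  unfold kz
  have := rpos hk (-0.53)
  unfold kr
  positivity

theorem B1_le : (kB1 k B : ℝ) ≤ 2 * k ^ (B : ℝ) := by
  have h1 := (Nat.ceil_lt_add_one (rpos hk (B : ℝ)).le).le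
  have h2 := rone hk (a := (B : ℝ)) (Nat.cast_nonneg _)
  unfold kB1
  linarith

theorem kd_ge {n : ℕ} {s eps : ℝ} (hN : NH k n s eps) : k ^ (0.99 : ℝ) ≤ kd s eps := by
  unfold kd
  have h1 := hN.s1
  have h2 := hN.e0
  have h3 : 0 < s := lt_of_lt_of_le (rpos hk _) h1
  nlinarith

theorem clog_le {n : ℕ} (hn : (n : ℝ) ≤ k) : (kN2 n : ℝ) ≤ 2 * Real.log k + 1 := by
  have hlk := Real.log_nonneg hk.one
  unfold kN2
  rcases le_or_gt n 1 with h1 | h1
  · rw [Nat.clog_of_right_le_one h1]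
    push_cast
    linarith
  · have h2 := Nat.pow_pred_clog_lt_self (b := 2) (by norm_num) h1
    have h3 : (2 : ℝ) ^ (Nat.clog 2 n).pred < k := by
      refine lt_of_lt_of_le ?_ hn
      exact_mod_cast h2
    have h4 := Real.log_lt_log (by positivity) h3
    rw [Real.log_pow] at h4
    have h5 := Real.log_two_gt_d9
    have h6 : (Nat.clog 2 n : ℝ) ≤ (((Nat.clog 2 n).pred : ℕ) : ℝ) + 1 := by
      have : Nat.clog 2 n ≤ (Nat.clog 2 n).pred + 1 := by
        rw [Nat.pred_eq_sub_one]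
        omega
      exact_mod_cast this
    have h7 : (0 : ℝ) ≤ (((Nat.clog 2 n).pred : ℕ) : ℝ) := Nat.cast_nonneg _
    nlinarith

end

/-- NUB4 -/
theorem nub4 : NUB4Stmt := by
  intro B
  obtain ⟨k0, hk0⟩ := big_ev B
  refine ⟨k0, fun k n s eps hk0k hN => ?_⟩
  have hk := hk0 k hk0k
  have hp := rpos hk
  have hk00 : 0 < k := kpos hk
  have hB0 : (0 : ℝ) ≤ B := Nat.cast_nonneg _
  have hn0 : (0 : ℝ) ≤ n := Nat.cast_nonneg _
  have hnk : (n : ℝ) ≤ k ^ (1 : ℝ) := by rw [Real.rpow_one]; exact hN.nk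
  have hd := kd_ge hk hN
  have hd0 : 0 < kd s eps := lt_of_lt_of_le (hp _) hd
  have hT := T_le hk
  have hT1 := T1_le hk
  have hT0 : (0 : ℝ) ≤ kT k := Nat.cast_nonneg _
  have hTw : ((kT k : ℝ) + 1) * kwm k ≤ 2 * k ^ (-0.514 : ℝ) := by
    unfold kwm
    calc ((kT k : ℝ) + 1) * k ^ (-0.99 : ℝ) ≤ (2 * k ^ (0.476 : ℝ)) * k ^ (-0.99 : ℝ) :=
          mul_le_mul_of_nonneg_right hT1 (hp _).le
      _ = 2 * (k ^ (0.476 : ℝ) * k ^ (-0.99 : ℝ)) := by ring
      _ = 2 * k ^ (-0.514 : ℝ) := by rw [radd hk]; norm_num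
  have hw : 0 < kwm k := hp _
  have hTw0 : 0 < ((kT k : ℝ) + 1) * kwm k := by positivity
  have hb : 0 < kb k := hp _
  have hr : kr k = k ^ (-0.53 : ℝ) := rfl
  have hr0 : 0 < kr k := hp _
  have hdinv : 1 / kd s eps ≤ k ^ (-0.99 : ℝ) := by
    rw [div_le_iff₀ hd0]
    calc (1 : ℝ) = k ^ (-0.99 : ℝ) * k ^ (0.99 : ℝ) := by rw [radd hk]; norm_num
      _ ≤ _ := mul_le_mul_of_nonneg_left hd (hp _).le
  have hdi0 : 0 < 1 / kd s eps := by positivity
  have hε : kεB k B = k ^ (-(60 * ((B : ℝ) + 1))) := rfl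
  have hM : ((kM B : ℕ) : ℝ) = 100000 * ((B : ℝ) + 1) := by unfold kM; push_cast; ring
  have hN2 : (kN2 n : ℝ) + 1 ≤ 4 * k ^ (0.001 : ℝ) := by
    have h1 := clog_le hk hN.nk
    have h2 := hk.log
    have h3 := hk.cst
    nlinarith
  have hN20 : (0 : ℝ) ≤ (kN2 n : ℝ) := Nat.cast_nonneg _
  refine
    { w0 := hw
      b0 := hb
      b1 := ?_
      b2 := ?_
      a8 := ?_
      l1 := ?_
      l1e := ?_
      lI := ?_
      lIe := ?_
      X3 := hp _
      Y1 := rone hk (by norm_num)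
      y1 := ?_
      y2 := ?_
      y3 := ?_
      tot := ?_ }
  · -- b1
    have h1 : (8 : ℝ) * k ^ (-0.514 : ℝ) ≤ k ^ (-0.05 : ℝ) := cm' hk (by norm_num) (by norm_num)
    have h2 : kb k = k ^ (-0.05 : ℝ) := rfl
    rw [h2]
    nlinarith
  · -- b2
    have h1 : (5600 : ℝ) * k ^ (-0.53 : ℝ) ≤ k ^ (-0.05 : ℝ) := cm' hk (by norm_num) (by norm_num)
    have h2 : kb k = k ^ (-0.05 : ℝ) := rfl
    rw [h2, hr]
    linarith
  · -- a8
    unfold kε7
    apply Real.exp_le_exp.2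
    apply neg_le_neg
    have h0 : 0 < 4 * ((kT k : ℝ) + 1) * kwm k := by positivity
    rw [le_div_iff₀ h0]
    have h1 : (8 : ℝ) * k ^ (-0.509 : ℝ) ≤ k ^ (-0.05 : ℝ) := cm' hk (by norm_num) (by norm_num)
    have h2 : kb k = k ^ (-0.05 : ℝ) := rfl
    have h3 : k ^ (0.005 : ℝ) * k ^ (-0.514 : ℝ) = k ^ (-0.509 : ℝ) := by
      rw [radd hk]; norm_num
    rw [h2]
    calc k ^ (0.005 : ℝ) * (4 * ((kT k : ℝ) + 1) * kwm k) =
          4 * (k ^ (0.005 : ℝ) * (((kT k : ℝ) + 1) * kwm k)) := by ring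
      _ ≤ 4 * (k ^ (0.005 : ℝ) * (2 * k ^ (-0.514 : ℝ))) := by
          apply mul_le_mul_of_nonneg_left _ (by norm_num)
          exact mul_le_mul_of_nonneg_left hTw (hp _).le
      _ = 8 * (k ^ (0.005 : ℝ) * k ^ (-0.514 : ℝ)) := by ring
      _ ≤ _ := by rw [h3]; exact h1
  · -- l1
    have hX : kX k = k ^ (-0.002 : ℝ) := rfl
    have e0 : kex 0 = 0.5 := by unfold kex; simp
    have hτ : (kτ k 0 : ℝ) + 1 ≤ 3 * k ^ (0.5 : ℝ) := by
      have h1 := tau_le hk 0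
      rw [e0] at h1
      have h2 := rone hk (a := 0.5) (by norm_num)
      linarith
    have hτ0 : (0 : ℝ) ≤ (kτ k 0 : ℝ) + 1 := by positivity
    have q1 : (n : ℝ) * kz k ≤ k ^ (-0.006 : ℝ) := by
      calc (n : ℝ) * kz k ≤ k ^ (1 : ℝ) * k ^ (-1.006 : ℝ) :=
            mul_le_mul hnk (z_le hk) (z_pos hk).le (hp _).le
        _ = _ := by rw [radd hk]; norm_num
    have q2 : (n : ℝ) * kr k ^ 2 ≤ k ^ (-0.06 : ℝ) := by
      rw [hr, pow_two]
      calc (n : ℝ) * (k ^ (-0.53 : ℝ) * k ^ (-0.53 : ℝ)) ≤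
            k ^ (1 : ℝ) * (k ^ (-0.53 : ℝ) * k ^ (-0.53 : ℝ)) :=
            mul_le_mul_of_nonneg_right hnk (by positivity)
        _ = _ := by rw [radd hk, radd hk]; norm_num
    have q3 : (n : ℝ) * (kr k * (kτ k 0 + 1) / kd s eps) ≤ 3 * k ^ (-0.02 : ℝ) := by
      have h1 : kr k * ((kτ k 0 : ℝ) + 1) / kd s eps ≤
          (k ^ (-0.53 : ℝ) * (3 * k ^ (0.5 : ℝ))) * k ^ (-0.99 : ℝ) := by
        rw [div_eq_mul_one_div]
        apply mul_le_mul _ hdinv hdi0.le (by positivity)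
        rw [hr]
        exact mul_le_mul_of_nonneg_left hτ (hp _).le
      calc (n : ℝ) * (kr k * (kτ k 0 + 1) / kd s eps) ≤
            k ^ (1 : ℝ) * ((k ^ (-0.53 : ℝ) * (3 * k ^ (0.5 : ℝ))) * k ^ (-0.99 : ℝ)) :=
            mul_le_mul hnk h1 (by positivity) (hp _).le
        _ = 3 * (k ^ (1 : ℝ) * ((k ^ (-0.53 : ℝ) * k ^ (0.5 : ℝ)) * k ^ (-0.99 : ℝ))) := by ring
        _ = _ := by rw [radd hk, radd hk, radd hk]; norm_num
    have p1 : (8400 : ℝ) * k ^ (-0.006 : ℝ) ≤ k ^ (-0.004 : ℝ) :=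
      cm' hk (by norm_num) (by norm_num)
    have p2 : (8400 : ℝ) * k ^ (-0.06 : ℝ) ≤ k ^ (-0.004 : ℝ) :=
      cm' hk (by norm_num) (by norm_num)
    have p3 : (84000 : ℝ) * k ^ (-0.02 : ℝ) ≤ k ^ (-0.004 : ℝ) :=
      cm' hk (by norm_num) (by norm_num)
    have p4 : (4 : ℝ) * k ^ (-0.004 : ℝ) ≤ k ^ (-0.002 : ℝ) :=
      cm' hk (by norm_num) (by norm_num)
    rw [hX]
    have e1 : 7 * ((n : ℝ) * (100 * (4 * kz k + 12 * kr k ^ 2 +
        2 * (20 * kr k * (kτ k 0 + 1) / kd s eps)))) =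
        2800 * (n * kz k) + 8400 * (n * kr k ^ 2) +
          28000 * (n * (kr k * (kτ k 0 + 1) / kd s eps)) := by
      field_simp
      ring
    rw [e1]
    have r1 := hp (-0.006 : ℝ)
    linarith
  · -- l1e
    have h1 : kX k / kb k = k ^ (0.048 : ℝ) := by
      unfold kX kb
      rw [← Real.rpow_sub (kpos hk)]
      norm_num
    rw [h1, hε]
    apply expl hk
    · linarith
    · positivity
    · norm_num
  · -- lI
    intro a _
    unfold kXI
    have := hp (0.3 : ℝ)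
    linarith
  · -- lIe
    intro a _
    have h1 : k ^ (0.01 : ℝ) ≤ kXI k n (kd s eps) a / 100 := by
      rw [le_div_iff₀ (by norm_num)]
      unfold kXI
      have h2 : (100 : ℝ) * k ^ (0.01 : ℝ) ≤ k ^ (0.3 : ℝ) := cm' hk (by norm_num) (by norm_num)
      have h3 : 0 ≤ (n : ℝ) * kq k (kd s eps) (kτ k (a + 1)) := by
        unfold kq
        positivity
      linarith
    refine (Real.exp_le_exp.2 (neg_le_neg h1)).trans ?_
    rw [hε]
    apply expl hk
    · linarith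
    · positivity
    · norm_num
  · -- y1
    have h2 : (1400 : ℝ) * k ^ (0.47 : ℝ) ≤ k ^ (0.48 : ℝ) := cm' hk (by norm_num) (by norm_num)
    have h3 : (n : ℝ) * kr k ≤ k ^ (0.47 : ℝ) := by
      rw [hr]
      calc (n : ℝ) * k ^ (-0.53 : ℝ) ≤ k ^ (1 : ℝ) * k ^ (-0.53 : ℝ) :=
            mul_le_mul_of_nonneg_right hnk (hp _).le
        _ = _ := by rw [radd hk]; norm_num
    have h4 : kY k = k ^ (0.48 : ℝ) := rfl
    rw [h4]
    linarith
  · -- y2
    have h4 : kY k = k ^ (0.48 : ℝ) := rfl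
    have h5 : kX3 k = k ^ (-0.03 : ℝ) := rfl
    have h6 : kY k + 1 ≤ 2 * k ^ (0.48 : ℝ) := by
      have := rone hk (a := 0.48) (by norm_num)
      rw [h4]
      linarith
    have h60 : 0 ≤ kY k + 1 := by rw [h4]; have := hp (0.48 : ℝ); linarith
    have h7 : kr k * (1 / kd s eps) * n * (kY k + 1) ≤ 2 * k ^ (-0.04 : ℝ) := by
      calc kr k * (1 / kd s eps) * n * (kY k + 1) ≤
            k ^ (-0.53 : ℝ) * k ^ (-0.99 : ℝ) * k ^ (1 : ℝ) * (2 * k ^ (0.48 : ℝ)) := by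
            apply mul_le_mul _ h6 h60 (by positivity)
            apply mul_le_mul _ hnk hn0 (by positivity)
            rw [hr]
            exact mul_le_mul_of_nonneg_left hdinv (hp _).le
        _ = 2 * (k ^ (-0.53 : ℝ) * k ^ (-0.99 : ℝ) * k ^ (1 : ℝ) * k ^ (0.48 : ℝ)) := by ring
        _ = _ := by rw [radd hk, radd hk, radd hk]; norm_num
    have h8 : (8400 : ℝ) * k ^ (-0.04 : ℝ) ≤ k ^ (-0.03 : ℝ) := cm' hk (by norm_num) (by norm_num)
    rw [h5]
    have e1 : 7 * ((2 * kr k / kd s eps) * n * (300 * (kY k + 1))) =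
        4200 * (kr k * (1 / kd s eps) * n * (kY k + 1)) := by
      field_simp
      ring
    rw [e1]
    linarith
  · -- y3
    have hB1 := B1_le hk
    have hB10 : (0 : ℝ) ≤ (kB1 k B : ℕ) := Nat.cast_nonneg _
    obtain ⟨W, hW⟩ : ∃ W, W = k ^ (-(70 * ((B : ℝ) + 1))) := ⟨_, rfl⟩
    have hW0 : 0 < W := hW ▸ hp _
    have hx : Real.exp 1 * (n ^ 2 * (4 * kr k ^ 2 / kd s eps)) / (kM B : ℕ) ≤ k ^ (-0.04 : ℝ) := by
      rw [hM, div_le_iff₀ (by positivity)]
      have a1 : (n : ℝ) ^ 2 * (kr k ^ 2 * (1 / kd s eps)) ≤ k ^ (-0.05 : ℝ) := by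
        calc (n : ℝ) ^ 2 * (kr k ^ 2 * (1 / kd s eps)) ≤
              (k ^ (1 : ℝ)) ^ 2 * ((k ^ (-0.53 : ℝ)) ^ 2 * k ^ (-0.99 : ℝ)) := by
              apply mul_le_mul (pow_le_pow_left₀ hn0 hnk 2) _ (by positivity) (by positivity)
              rw [hr]
              exact mul_le_mul_of_nonneg_left hdinv (by positivity)
          _ = _ := by
              rw [pow_two, pow_two, radd hk, radd hk, radd hk, radd hk]
              norm_num
      have a2 : k ^ (-0.05 : ℝ) ≤ k ^ (-0.04 : ℝ) := rle hk (by norm_num)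
      have a3 := Real.exp_one_lt_d9
      have a4 : Real.exp 1 * (n ^ 2 * (4 * kr k ^ 2 / kd s eps)) =
          4 * Real.exp 1 * ((n : ℝ) ^ 2 * (kr k ^ 2 * (1 / kd s eps))) := by
        field_simp
      rw [a4]
      have a5 : 0 ≤ (n : ℝ) ^ 2 * (kr k ^ 2 * (1 / kd s eps)) := by positivity
      have a6 : 4 * Real.exp 1 ≤ 100000 * ((B : ℝ) + 1) := by nlinarith
      calc 4 * Real.exp 1 * ((n : ℝ) ^ 2 * (kr k ^ 2 * (1 / kd s eps))) ≤
            (100000 * ((B : ℝ) + 1)) * k ^ (-0.04 : ℝ) :=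
            mul_le_mul a6 (a1.trans a2) a5 (by positivity)
        _ = _ := mul_comm _ _
    have hx0 : 0 ≤ Real.exp 1 * (n ^ 2 * (4 * kr k ^ 2 / kd s eps)) / (kM B : ℕ) := by positivity
    have hxM : (Real.exp 1 * (n ^ 2 * (4 * kr k ^ 2 / kd s eps)) / (kM B : ℕ)) ^ kM B ≤
        k ^ (-(4000 * ((B : ℝ) + 1))) := by
      refine (pow_le_pow_left₀ hx0 hx _).trans (le_of_eq ?_)
      rw [← Real.rpow_mul_natCast (kpos hk).le, hM]
      congr 1
      ring
    have t1 : (kB1 k B : ℕ) * (2 * (Real.exp 1 * (n ^ 2 * (4 * kr k ^ 2 / kd s eps)) /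
        (kM B : ℕ)) ^ kM B) ≤ 4 * W := by
      calc (kB1 k B : ℕ) * (2 * (Real.exp 1 * (n ^ 2 * (4 * kr k ^ 2 / kd s eps)) /
            (kM B : ℕ)) ^ kM B) ≤ (2 * k ^ (B : ℝ)) * (2 * k ^ (-(4000 * ((B : ℝ) + 1)))) := by
            apply mul_le_mul hB1 _ (by positivity) (by positivity)
            exact mul_le_mul_of_nonneg_left hxM (by norm_num)
        _ = 4 * (k ^ (B : ℝ) * k ^ (-(4000 * ((B : ℝ) + 1)))) := by ring
        _ ≤ 4 * W := by
            rw [radd hk, hW]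
            apply mul_le_mul_of_nonneg_left _ (by norm_num)
            exact rle hk (by linarith)
    have t2 : 2 * Real.exp (-(kY k / 100)) ≤ 2 * W := by
      apply mul_le_mul_of_nonneg_left _ (by norm_num)
      have h1 : k ^ (0.01 : ℝ) ≤ kY k / 100 := by
        rw [le_div_iff₀ (by norm_num)]
        have h2 : (100 : ℝ) * k ^ (0.01 : ℝ) ≤ k ^ (0.48 : ℝ) :=
          cm' hk (by norm_num) (by norm_num)
        unfold kY
        linarith
      refine (Real.exp_le_exp.2 (neg_le_neg h1)).trans ?_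
      rw [hW]
      apply expl hk
      · linarith
      · positivity
      · norm_num
    have t3 : 2 * (kB1 k B : ℕ) * Real.exp (-kY k) ≤ 4 * W := by
      have h1 : Real.exp (-kY k) ≤ k ^ (-(80 * ((B : ℝ) + 1))) := by
        unfold kY
        apply expl hk
        · linarith
        · positivity
        · norm_num
      calc 2 * (kB1 k B : ℕ) * Real.exp (-kY k) ≤
            (2 * (2 * k ^ (B : ℝ))) * k ^ (-(80 * ((B : ℝ) + 1))) := by
            apply mul_le_mul _ h1 (Real.exp_pos _).le (by positivity)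
            linarith
        _ = 4 * (k ^ (B : ℝ) * k ^ (-(80 * ((B : ℝ) + 1)))) := by ring
        _ ≤ 4 * W := by
            rw [radd hk, hW]
            apply mul_le_mul_of_nonneg_left _ (by norm_num)
            exact rle hk (by linarith)
    have t4 : 2 * Real.exp (-(kX3 k / (8 * ((kM B : ℝ) + 1) * ((kT k : ℝ) + 1) * kwm k))) ≤
        2 * W := by
      apply mul_le_mul_of_nonneg_left _ (by norm_num)
      have h1 : k ^ (0.01 : ℝ) ≤ kX3 k / (8 * ((kM B : ℝ) + 1) * ((kT k : ℝ) + 1) * kwm k) := by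
        rw [le_div_iff₀ (by positivity), hM]
        have g1 : (16 * (100000 * ((B : ℝ) + 1) + 1)) * k ^ (-0.504 : ℝ) ≤ k ^ (-0.03 : ℝ) :=
          cm hk (by linarith) (by norm_num)
        have g2 : k ^ (0.01 : ℝ) * k ^ (-0.514 : ℝ) = k ^ (-0.504 : ℝ) := by
          rw [radd hk]; norm_num
        have g3 : kX3 k = k ^ (-0.03 : ℝ) := rfl
        rw [g3]
        calc k ^ (0.01 : ℝ) * (8 * (100000 * ((B : ℝ) + 1) + 1) * ((kT k : ℝ) + 1) * kwm k) =
              (8 * (100000 * ((B : ℝ) + 1) + 1)) *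
                (k ^ (0.01 : ℝ) * (((kT k : ℝ) + 1) * kwm k)) := by ring
          _ ≤ (8 * (100000 * ((B : ℝ) + 1) + 1)) * (k ^ (0.01 : ℝ) * (2 * k ^ (-0.514 : ℝ))) := by
              apply mul_le_mul_of_nonneg_left _ (by positivity)
              exact mul_le_mul_of_nonneg_left hTw (hp _).le
          _ = (16 * (100000 * ((B : ℝ) + 1) + 1)) * (k ^ (0.01 : ℝ) * k ^ (-0.514 : ℝ)) := by ring
          _ ≤ _ := by rw [g2]; exact g1
      refine (Real.exp_le_exp.2 (neg_le_neg h1)).trans ?_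
      rw [hW]
      apply expl hk
      · linarith
      · positivity
      · norm_num
    rw [hε]
    have hsum : (kB1 k B : ℕ) * (2 * (Real.exp 1 * (n ^ 2 * (4 * kr k ^ 2 / kd s eps)) /
        (kM B : ℕ)) ^ kM B) + 2 * Real.exp (-(kY k / 100)) +
        2 * (kB1 k B : ℕ) * Real.exp (-kY k) +
        2 * Real.exp (-(kX3 k / (8 * ((kM B : ℝ) + 1) * ((kT k : ℝ) + 1) * kwm k))) ≤ 12 * W := by
      linarith
    have hpre : 4 * ((kN2 n : ℝ) + 1) ≤ 16 * k ^ (1 : ℝ) := by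
      have := rle hk (a := 0.001) (b := 1) (by norm_num)
      linarith
    calc 4 * ((kN2 n : ℝ) + 1) * ((kB1 k B : ℕ) * (2 * (Real.exp 1 *
          (n ^ 2 * (4 * kr k ^ 2 / kd s eps)) / (kM B : ℕ)) ^ kM B) +
          2 * Real.exp (-(kY k / 100)) + 2 * (kB1 k B : ℕ) * Real.exp (-kY k) +
          2 * Real.exp (-(kX3 k / (8 * ((kM B : ℝ) + 1) * ((kT k : ℝ) + 1) * kwm k)))) ≤
          (16 * k ^ (1 : ℝ)) * (12 * W) :=
          mul_le_mul hpre hsum (by positivity) (by positivity)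
      _ = 192 * (k ^ (1 : ℝ) * W) := by ring
      _ ≤ _ := by
          rw [hW, radd hk]
          apply cm' hk (by norm_num)
          linarith
  · -- tot
    have h1 : kX k = k ^ (-0.002 : ℝ) := rfl
    have h2 : kb k = k ^ (-0.05 : ℝ) := rfl
    have h3 : kX3 k = k ^ (-0.03 : ℝ) := rfl
    rw [h1, h2, h3]
    have p1 : (4 : ℝ) * k ^ (-0.002 : ℝ) ≤ k ^ (-0.001 : ℝ) := cm' hk (by norm_num) (by norm_num)
    have p2 : (4 : ℝ) * k ^ (-0.05 : ℝ) ≤ k ^ (-0.001 : ℝ) := cm' hk (by norm_num) (by norm_num)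
    have p3 : (64 : ℝ) * k ^ (-0.029 : ℝ) ≤ k ^ (-0.001 : ℝ) := cm' hk (by norm_num) (by norm_num)
    have p4 : 4 * ((kN2 n : ℝ) + 1) * k ^ (-0.03 : ℝ) ≤ 16 * k ^ (-0.029 : ℝ) := by
      calc 4 * ((kN2 n : ℝ) + 1) * k ^ (-0.03 : ℝ) ≤
            4 * (4 * k ^ (0.001 : ℝ)) * k ^ (-0.03 : ℝ) := by
            apply mul_le_mul_of_nonneg_right _ (hp _).le
            linarith
        _ = 16 * (k ^ (0.001 : ℝ) * k ^ (-0.03 : ℝ)) := by ring
        _ = _ := by rw [radd hk]; norm_num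
    linarith

end Pool.Agent.C4K.H79
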