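import Pool.Agent.C4K.StNumB
import Pool.Agent.Helper79_C4K.Nub4

/-!
# C4K, module NUB3: numbers with `B`, coins (after helper17's NU3)
-/

set_option autoImplicit false

noncomputable section

namespace Pool.Agent.C4K.H79

open Finset Pool.Agent.C4K

theorem kex_pair (a : ℕ) (ha : a < 11) : (0.004 - 0.52 + 1.5 * kex (a + 1) - kex a : ℝ) ≤ -0.006 ∧
    (0.004 - 1.034 + 2 * kex (a + 1) - kex a : ℝ) ≤ -0.006 := by
  unfold kex
  interval_cases a <;> simp <;> norm_num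

/-- `k` is large, with a large logarithm. -/
structure Big3 (B : ℕ) (k : ℝ) : Prop where
  big : Big B k
  lg : 15 * ((B : ℝ) + 1) ≤ Real.log k

theorem big3_ev (B : ℕ) : ∃ k0 : ℝ, ∀ k, k0 ≤ k → Big3 B k := by
  obtain ⟨k0, hk0⟩ := big_ev B
  have h1 : ∀ᶠ k : ℝ in Filter.atTop, 15 * ((B : ℝ) + 1) ≤ Real.log k :=
    Real.tendsto_log_atTop.eventually (Filter.eventually_ge_atTop _)
  obtain ⟨k1, hk1⟩ := Filter.eventually_atTop.1 h1
  exact ⟨max k0 k1, fun k hk => ⟨hk0 k ((le_max_left _ _).trans hk),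
    hk1 k ((le_max_right _ _).trans hk)⟩⟩

section
variable {B : ℕ} {k : ℝ} (hk : Big B k)
include hk

/-- squares of the logarithm are absorbed as well. -/
theorem cl {c x y : ℝ} (hc : c ≤ 1000000000 * ((B : ℝ) + 1)) (h : x + 0.003 ≤ y) :
    c * (Real.log k ^ 2 * k ^ x) ≤ k ^ y := by
  have h1 : Real.log k ^ 2 ≤ (k ^ (0.001 : ℝ)) ^ 2 :=
    pow_le_pow_left₀ (Real.log_nonneg hk.one) hk.log 2
  have h2 : (k ^ (0.001 : ℝ)) ^ 2 = k ^ (0.002 : ℝ) := by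
    rw [pow_two, radd hk]; norm_num
  rw [h2] at h1
  have h3 : Real.log k ^ 2 * k ^ x ≤ k ^ (0.002 : ℝ) * k ^ x :=
    mul_le_mul_of_nonneg_right h1 (rpos hk x).le
  have h4 : 0 ≤ Real.log k ^ 2 * k ^ x := mul_nonneg (sq_nonneg _) (rpos hk x).le
  calc c * (Real.log k ^ 2 * k ^ x) ≤ k ^ (0.001 : ℝ) * (k ^ (0.002 : ℝ) * k ^ x) :=
        mul_le_mul (hc.trans hk.cst) h3 h4 (rpos hk _).le
    _ = k ^ (0.001 + (0.002 + x)) := by rw [radd hk, radd hk]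
    _ ≤ k ^ y := rle hk (by linarith)

theorem L1_le : (kL1 k : ℝ) ≤ k ^ (0.003 : ℝ) := Nat.floor_le (rpos hk _).le

theorem L1_pos : 1 ≤ kL1 k := Nat.le_floor (by rw [Nat.cast_one]; exact rone hk (by norm_num))

theorem pi_nonneg (a : ℕ) : 0 ≤ kπ k a := by
  unfold kπ
  positivity

theorem pi_le (a : ℕ) : kπ k a ≤ 8 * (Real.log k ^ 2 * k ^ (0.003 - kex a)) := by
  unfold kπ
  rw [div_le_iff₀ (lt_of_lt_of_le (rpos hk _) (tau_ge hk a))]
  have h1 : k ^ (0.003 : ℝ) ≤ k ^ (0.003 - kex a) * (kτ k a : ℝ) := by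
    calc k ^ (0.003 : ℝ) = k ^ (0.003 - kex a) * k ^ kex a := by
          rw [radd hk]
          congr 1
          ring
      _ ≤ _ := mul_le_mul_of_nonneg_left (tau_ge hk a) (rpos hk _).le
  have h2 := (L1_le hk).trans h1
  have h3 : 0 ≤ 8 * Real.log k ^ 2 := by positivity
  calc 8 * Real.log k ^ 2 * (kL1 k : ℝ) ≤ 8 * Real.log k ^ 2 * (k ^ (0.003 - kex a) * (kτ k a : ℝ)) :=
        mul_le_mul_of_nonneg_left h2 h3
    _ = _ := by ring

theorem pi_le_one (a : ℕ) : kπ k a ≤ 1 := by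
  refine (pi_le hk a).trans ?_
  have h1 : (8 : ℝ) * (Real.log k ^ 2 * k ^ (0.003 - kex a)) ≤ k ^ (0 : ℝ) :=
    cl hk ((by norm_num : (8 : ℝ) ≤ 1000000000).trans (c9 hk))
      (by have := kex_lo hk a; linarith)
  rwa [Real.rpow_zero] at h1

theorem coin (hl : 15 * ((B : ℝ) + 1) ≤ Real.log k) (a : ℕ) :
    (1 - kπ k a) ^ (kτ k a / kL1 k) ≤ kεB k B := by
  have hp0 := pi_nonneg hk a
  have hp1 := pi_le_one hk a
  have h1 : (1 - kπ k a) ^ (kτ k a / kL1 k) ≤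
      Real.exp (-(kπ k a) * ((kτ k a / kL1 k : ℕ) : ℝ)) := by
    rw [mul_comm, Real.exp_nat_mul]
    exact pow_le_pow_left₀ (by linarith) (Real.one_sub_le_exp_neg _) _
  refine h1.trans ?_
  unfold kεB
  rw [Real.rpow_def_of_pos (kpos hk)]
  apply Real.exp_le_exp.2
  have hL := L1_pos hk
  have hτ : (0 : ℝ) < kτ k a := lt_of_lt_of_le (rpos hk _) (tau_ge hk a)
  have h2 : (kτ k a : ℝ) < ((kτ k a / kL1 k : ℕ) + 1) * (kL1 k : ℝ) := by
    exact_mod_cast Nat.lt_mul_of_div_lt (Nat.lt_succ_self _) hL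
  have h3 : 2 * (kL1 k : ℝ) ≤ kτ k a := by
    have e1 := L1_le hk
    have e2 := tau_ge hk a
    have e3 : (2 : ℝ) * k ^ (0.003 : ℝ) ≤ k ^ kex a :=
      cm' hk (by norm_num) (by have := kex_lo hk a; linarith)
    linarith
  have h4 : 4 * Real.log k ^ 2 ≤ kπ k a * ((kτ k a / kL1 k : ℕ) : ℝ) := by
    unfold kπ
    rw [div_mul_eq_mul_div, le_div_iff₀ hτ]
    have h5 : (kτ k a : ℝ) ≤ 2 * ((kL1 k : ℝ) * ((kτ k a / kL1 k : ℕ) : ℝ)) := by nlinarith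
    have h6 : 0 ≤ 4 * Real.log k ^ 2 := by positivity
    calc 4 * Real.log k ^ 2 * (kτ k a : ℝ) ≤
          4 * Real.log k ^ 2 * (2 * ((kL1 k : ℝ) * ((kτ k a / kL1 k : ℕ) : ℝ))) :=
          mul_le_mul_of_nonneg_left h5 h6
      _ = _ := by ring
  have h8 : 60 * ((B : ℝ) + 1) * Real.log k ≤ 4 * Real.log k ^ 2 := by
    have h9 := Real.log_nonneg hk.one
    nlinarith
  nlinarith

theorem nq_le {n : ℕ} {d : ℝ} (hn : (n : ℝ) ≤ k) (hd : k ^ (0.99 : ℝ) ≤ d) (a : ℕ) :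
    n * kq k d (kτ k (a + 1)) ≤ 240 * k ^ (-0.52 + 1.5 * kex (a + 1)) +
      128 * k ^ (-1.034 + 2 * kex (a + 1)) := by
  obtain ⟨e', he'⟩ : ∃ e, e = kex (a + 1) := ⟨_, rfl⟩
  obtain ⟨t, ht⟩ : ∃ t, t = kτ k (a + 1) := ⟨_, rfl⟩
  have ht2 : (t : ℝ) ≤ 2 * k ^ e' := by rw [ht, he']; exact tau_le hk _
  have hd0 : 0 < d := lt_of_lt_of_le (rpos hk _) hd
  have hT := T_le hk
  have hT0 : (0 : ℝ) ≤ kT k := Nat.cast_nonneg _
  rw [← ht, ← he']
  have hs : Real.sqrt t ≤ 2 * k ^ (e' / 2) := by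
    apply Real.sqrt_le_iff.2
    refine ⟨by have := rpos hk (e' / 2); positivity, ht2.trans ?_⟩
    rw [mul_pow, ← Real.rpow_mul_natCast (kpos hk).le]
    have : e' / 2 * ((2 : ℕ) : ℝ) = e' := by push_cast; ring
    rw [this]
    have := rpos hk e'
    linarith
  have A : 30 * (t * Real.sqrt t) / d ≤ 120 * k ^ (1.5 * e' - 0.99) := by
    rw [div_le_iff₀ hd0]
    have e1 : (t : ℝ) * Real.sqrt t ≤ (2 * k ^ e') * (2 * k ^ (e' / 2)) :=
      mul_le_mul ht2 hs (Real.sqrt_nonneg _) (by have := rpos hk e'; positivity)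
    have e2 : k ^ e' * k ^ (e' / 2) = k ^ (1.5 * e') := by
      rw [radd hk]; congr 1; ring
    have e3 : k ^ (1.5 * e') ≤ k ^ (1.5 * e' - 0.99) * d := by
      calc k ^ (1.5 * e') = k ^ (1.5 * e' - 0.99) * k ^ (0.99 : ℝ) := by
            rw [radd hk]; congr 1; ring
        _ ≤ _ := mul_le_mul_of_nonneg_left hd (rpos hk _).le
    nlinarith
  have B' : 16 * (kT k : ℝ) * (t : ℝ) ^ 2 / d ^ 2 ≤ 64 * k ^ (2 * e' - 1.504) := by
    rw [div_le_iff₀ (by positivity)]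
    have e1 : (t : ℝ) ^ 2 ≤ (2 * k ^ e') ^ 2 := pow_le_pow_left₀ (Nat.cast_nonneg _) ht2 2
    have e2 : k ^ (0.476 : ℝ) * (k ^ e') ^ 2 = k ^ (2 * e' - 1.504) * (k ^ (0.99 : ℝ)) ^ 2 := by
      rw [pow_two, pow_two, radd hk, radd hk, radd hk, radd hk]
      congr 1
      ring
    have e3 : (k ^ (0.99 : ℝ)) ^ 2 ≤ d ^ 2 := pow_le_pow_left₀ (rpos hk _).le hd 2
    have e4 : (kT k : ℝ) * (t : ℝ) ^ 2 ≤ k ^ (0.476 : ℝ) * (2 * k ^ e') ^ 2 :=
      mul_le_mul hT e1 (by positivity) (rpos hk _).le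
    have e5 := mul_le_mul_of_nonneg_left e3 (rpos hk (2 * e' - 1.504)).le
    nlinarith
  have hr : kr k = k ^ (-0.53 : ℝ) := rfl
  have hr0 : 0 < kr k := rpos hk _
  unfold kq
  have hn0 : (0 : ℝ) ≤ n := Nat.cast_nonneg _
  have e0 : 0 ≤ 30 * (t * Real.sqrt t) / d + 16 * (kT k : ℝ) * (t : ℝ) ^ 2 / d ^ 2 := by positivity
  have e1 : (n : ℝ) * (2 * (kr k * (30 * (t * Real.sqrt t) / d + 16 * (kT k : ℝ) * (t : ℝ) ^ 2 / d ^ 2))) ≤
      k * (2 * (kr k * (120 * k ^ (1.5 * e' - 0.99) + 64 * k ^ (2 * e' - 1.504)))) := by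
    apply mul_le_mul hn _ (by positivity) (kpos hk).le
    apply mul_le_mul_of_nonneg_left _ (by norm_num)
    apply mul_le_mul_of_nonneg_left _ hr0.le
    linarith
  refine e1.trans (le_of_eq ?_)
  rw [hr]
  have e2 : k * (k ^ (-0.53 : ℝ) * k ^ (1.5 * e' - 0.99)) = k ^ (-0.52 + 1.5 * e') := by
    nth_rewrite 1 [← Real.rpow_one k]
    rw [radd hk, radd hk]
    congr 1
    ring
  have e3 : k * (k ^ (-0.53 : ℝ) * k ^ (2 * e' - 1.504)) = k ^ (-1.034 + 2 * e') := by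
    nth_rewrite 1 [← Real.rpow_one k]
    rw [radd hk, radd hk]
    congr 1
    ring
  rw [← e2, ← e3]
  ring

theorem nq_nonneg {n : ℕ} {d : ℝ} (hd : k ^ (0.99 : ℝ) ≤ d) (a : ℕ) :
    0 ≤ (n : ℝ) * kq k d (kτ k (a + 1)) := by
  have hd0 : 0 < d := lt_of_lt_of_le (rpos hk _) hd
  have hr0 : 0 < kr k := rpos hk _
  unfold kq
  positivity

theorem nq_pi {n : ℕ} {d : ℝ} (hn : (n : ℝ) ≤ k) (hd : k ^ (0.99 : ℝ) ≤ d) (a : ℕ) (ha : a < 11) :
    n * kq k d (kτ k (a + 1)) * kπ k a ≤ 2944 * (Real.log k ^ 2 * k ^ (-0.007 : ℝ)) := by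
  obtain ⟨x1, x2⟩ := kex_pair a ha
  have h1 := nq_le hk hn hd a
  have h2 := pi_le hk a
  have hl : 0 ≤ Real.log k ^ 2 := by positivity
  have hk00 : 0 < k := kpos hk
  obtain ⟨e, he⟩ : ∃ e, e = kex a := ⟨_, rfl⟩
  obtain ⟨e', he'⟩ : ∃ e, e = kex (a + 1) := ⟨_, rfl⟩
  rw [← he'] at h1 x1 x2
  rw [← he] at h2 x1 x2
  have f1 : k ^ (-0.52 + 1.5 * e') * k ^ (0.003 - e) ≤ k ^ (-0.007 : ℝ) := by
    rw [radd hk]
    apply rle hk
    linarith
  have f2 : k ^ (-1.034 + 2 * e') * k ^ (0.003 - e) ≤ k ^ (-0.007 : ℝ) := by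
    rw [radd hk]
    apply rle hk
    linarith
  refine (mul_le_mul h1 h2 (pi_nonneg hk a) (by positivity)).trans ?_
  have f3 : 240 * (k ^ (-0.52 + 1.5 * e') * k ^ (0.003 - e)) +
      128 * (k ^ (-1.034 + 2 * e') * k ^ (0.003 - e)) ≤ 368 * k ^ (-0.007 : ℝ) := by linarith
  have f4 := mul_le_mul_of_nonneg_left f3 hl
  calc (240 * k ^ (-0.52 + 1.5 * e') + 128 * k ^ (-1.034 + 2 * e')) *
        (8 * (Real.log k ^ 2 * k ^ (0.003 - e))) =
      8 * (Real.log k ^ 2 * (240 * (k ^ (-0.52 + 1.5 * e') * k ^ (0.003 - e)) +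
      128 * (k ^ (-1.034 + 2 * e') * k ^ (0.003 - e)))) := by ring
    _ ≤ 8 * (Real.log k ^ 2 * (368 * k ^ (-0.007 : ℝ))) := by linarith
    _ = _ := by ring

theorem n_pi {n : ℕ} (hn : (n : ℝ) ≤ k) :
    (n : ℝ) * kπ k 11 ≤ 8 * (Real.log k ^ 2 * k ^ (-0.009 : ℝ)) := by
  have e1 := pi_le hk 11
  have e2 : kex 11 = 1.012 := by unfold kex; simp
  rw [e2] at e1
  have e3 : k * k ^ (0.003 - 1.012 : ℝ) = k ^ (-0.009 : ℝ) := by
    nth_rewrite 1 [← Real.rpow_one k]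
    rw [radd hk]
    norm_num
  calc (n : ℝ) * kπ k 11 ≤ k * (8 * (Real.log k ^ 2 * k ^ (0.003 - 1.012 : ℝ))) :=
        mul_le_mul hn e1 (pi_nonneg hk 11) (kpos hk).le
    _ = 8 * (Real.log k ^ 2 * (k * k ^ (0.003 - 1.012 : ℝ))) := by ring
    _ = _ := by rw [e3]

theorem pi_half (a : ℕ) : kπ k a ≤ 8 * (Real.log k ^ 2 * k ^ (-0.497 : ℝ)) := by
  refine (pi_le hk a).trans ?_
  apply mul_le_mul_of_nonneg_left _ (by norm_num)
  apply mul_le_mul_of_nonneg_left _ (by positivity)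
  exact rle hk (by have := kex_lo hk a; linarith)

theorem kmB_pi {n : ℕ} {d : ℝ} (hn : (n : ℝ) ≤ k) (hd : k ^ (0.99 : ℝ) ≤ d) (a : ℕ)
    (ha : a < 11) : (kmB k n d B a : ℝ) * kπ k a ≤
      810000 * ((B : ℝ) + 1) * (Real.log k ^ 2 * k ^ (-0.006 : ℝ)) := by
  have hl : 0 ≤ Real.log k ^ 2 := by positivity
  have hB0 : (0 : ℝ) ≤ B := Nat.cast_nonneg _
  have h0 := nq_nonneg hk (n := n) hd a
  have M : (kmB k n d B a : ℝ) ≤ k ^ (0.001 : ℝ) * (n * kq k d (kτ k (a + 1))) +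
      100001 * ((B : ℝ) + 1) := by
    unfold kmB kM
    rw [Nat.cast_add]
    have e1 := (Nat.ceil_lt_add_one (a := k ^ (0.001 : ℝ) * (n * kq k d (kτ k (a + 1))))
      (mul_nonneg (rpos hk _).le h0)).le
    push_cast
    linarith
  have h1 := nq_pi hk hn hd a ha
  have h2 := pi_half hk a
  have h3 : k ^ (0.001 : ℝ) * k ^ (-0.007 : ℝ) = k ^ (-0.006 : ℝ) := by rw [radd hk]; norm_num
  have h4 : k ^ (-0.497 : ℝ) ≤ k ^ (-0.006 : ℝ) := rle hk (by norm_num)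
  have h5 := mul_le_mul_of_nonneg_left h4 hl
  have h6 := mul_le_mul_of_nonneg_left h1 (rpos hk (0.001 : ℝ)).le
  have h7 : k ^ (0.001 : ℝ) * (2944 * (Real.log k ^ 2 * k ^ (-0.007 : ℝ))) =
      2944 * (Real.log k ^ 2 * k ^ (-0.006 : ℝ)) := by
    rw [← h3]; ring
  rw [h7] at h6
  have h8 := mul_le_mul_of_nonneg_right M (pi_nonneg hk a)
  have h9 : 100001 * ((B : ℝ) + 1) * kπ k a ≤
      100001 * ((B : ℝ) + 1) * (8 * (Real.log k ^ 2 * k ^ (-0.006 : ℝ))) := by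
    apply mul_le_mul_of_nonneg_left _ (by positivity)
    linarith
  have h10 : 0 ≤ Real.log k ^ 2 * k ^ (-0.006 : ℝ) := mul_nonneg hl (rpos hk _).le
  nlinarith

theorem sum_le {n : ℕ} {d : ℝ} (hn : (n : ℝ) ≤ k) (hd : k ^ (0.99 : ℝ) ≤ d) :
    (∑ a ∈ range 11, (kmB k n d B a : ℝ) * kπ k a) + n * kπ k 11 ≤ k ^ (-0.003 : ℝ) := by
  have hB0 : (0 : ℝ) ≤ B := Nat.cast_nonneg _
  have hl : 0 ≤ Real.log k ^ 2 := by positivity
  have h1 : (∑ a ∈ range 11, (kmB k n d B a : ℝ) * kπ k a) ≤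
      ∑ a ∈ range 11, 810000 * ((B : ℝ) + 1) * (Real.log k ^ 2 * k ^ (-0.006 : ℝ)) :=
    Finset.sum_le_sum fun a ha => kmB_pi hk hn hd a (Finset.mem_range.1 ha)
  rw [Finset.sum_const, Finset.card_range, nsmul_eq_mul] at h1
  have h2 := n_pi hk hn
  have h3 : k ^ (-0.009 : ℝ) ≤ k ^ (-0.006 : ℝ) := rle hk (by norm_num)
  have h4 := mul_le_mul_of_nonneg_left h3 hl
  have h5 : (9000000 * ((B : ℝ) + 1)) * (Real.log k ^ 2 * k ^ (-0.006 : ℝ)) ≤ k ^ (-0.003 : ℝ) :=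
    cl hk (by linarith) (by norm_num)
  have h6 : 0 ≤ Real.log k ^ 2 * k ^ (-0.006 : ℝ) := mul_nonneg hl (rpos hk _).le
  push_cast at h1
  nlinarith

end

/-- NUB3 -/
theorem nub3 : NUB3Stmt := by
  intro B
  obtain ⟨k0', hk0'⟩ := big3_ev B
  refine ⟨k0', fun k n s eps hk0k hN => ?_⟩
  obtain ⟨hk, hlg⟩ := hk0' k hk0k
  have hp := rpos hk
  have hk00 : 0 < k := kpos hk
  have hB0 : (0 : ℝ) ≤ B := Nat.cast_nonneg _
  have hn0 : (0 : ℝ) ≤ n := Nat.cast_nonneg _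
  have hd := kd_ge hk hN
  have hM : ((kM B : ℕ) : ℝ) = 100000 * ((B : ℝ) + 1) := by unfold kM; push_cast; ring
  have hl : 0 ≤ Real.log k ^ 2 := by positivity
  refine
    { p0 := pi_nonneg hk
      p1 := pi_le_one hk
      ka := fun a _ => coin hk hlg a
      kb := ?_
      lin := ?_
      exp := ?_
      deg := ?_ }
  · have h1 := sum_le hk hN.nk hd
    have h0 : 0 ≤ (∑ a ∈ range 11, (kmB k n (kd s eps) B a : ℝ) * kπ k a) + n * kπ k 11 := by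
      apply add_nonneg
      · apply Finset.sum_nonneg
        intro a _
        exact mul_nonneg (Nat.cast_nonneg _) (pi_nonneg hk a)
      · exact mul_nonneg (Nat.cast_nonneg _) (pi_nonneg hk 11)
    have hM0 : (0 : ℝ) < ((kM B : ℕ) : ℝ) := by rw [hM]; positivity
    have h2 : Real.exp 1 * ((∑ a ∈ range 11, (kmB k n (kd s eps) B a : ℝ) * kπ k a) +
        n * kπ k 11) / ((kM B : ℕ) : ℝ) ≤ k ^ (-0.003 : ℝ) := by
      rw [div_le_iff₀ hM0]
      have h3 := Real.exp_one_lt_d9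
      have h4 : Real.exp 1 ≤ ((kM B : ℕ) : ℝ) := by
        rw [hM]
        linarith
      calc Real.exp 1 * ((∑ a ∈ range 11, (kmB k n (kd s eps) B a : ℝ) * kπ k a) + n * kπ k 11) ≤
          ((kM B : ℕ) : ℝ) * k ^ (-0.003 : ℝ) :=
            mul_le_mul h4 h1 h0 hM0.le
        _ = _ := mul_comm _ _
    have h3 : 0 ≤ Real.exp 1 * ((∑ a ∈ range 11, (kmB k n (kd s eps) B a : ℝ) * kπ k a) +
        n * kπ k 11) / ((kM B : ℕ) : ℝ) :=
      div_nonneg (mul_nonneg (Real.exp_pos 1).le h0) hM0.le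
    refine (pow_le_pow_left₀ h3 h2 _).trans ?_
    rw [← Real.rpow_mul_natCast hk00.le, hM]
    unfold kεB
    apply rle hk
    linarith
  · -- lin
    have hX : kX k = k ^ (-0.002 : ℝ) := rfl
    rw [hX]
    have hterm : ∀ a ∈ range 11, 2 * (kXI k n (kd s eps) a + 100) * kπ k a ≤
        4200000 * (Real.log k ^ 2 * k ^ (-0.007 : ℝ)) := by
      intro a ha
      have h1 := nq_pi hk hN.nk hd a (Finset.mem_range.1 ha)
      have h2 := pi_half hk a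
      have h3 : k ^ (0.3 : ℝ) * k ^ (-0.497 : ℝ) ≤ k ^ (-0.007 : ℝ) := by
        rw [radd hk]
        exact rle hk (by norm_num)
      have h4 : k ^ (-0.497 : ℝ) ≤ k ^ (-0.007 : ℝ) := rle hk (by norm_num)
      have h5 := mul_le_mul_of_nonneg_left h3 hl
      have h6 := mul_le_mul_of_nonneg_left h4 hl
      have h7 := mul_le_mul_of_nonneg_left h2 (hp (0.3 : ℝ)).le
      have h8 : k ^ (0.3 : ℝ) * (8 * (Real.log k ^ 2 * k ^ (-0.497 : ℝ))) =
          8 * (Real.log k ^ 2 * (k ^ (0.3 : ℝ) * k ^ (-0.497 : ℝ))) := by ring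
      rw [h8] at h7
      have h9 : 0 ≤ Real.log k ^ 2 * k ^ (-0.007 : ℝ) := mul_nonneg hl (hp _).le
      unfold kXI
      have h10 : 2 * (700 * (n * kq k (kd s eps) (kτ k (a + 1))) + k ^ (0.3 : ℝ) + 100) * kπ k a =
          1400 * (n * kq k (kd s eps) (kτ k (a + 1)) * kπ k a) + 2 * (k ^ (0.3 : ℝ) * kπ k a) +
            200 * kπ k a := by ring
      rw [h10]
      linarith
    have hs := Finset.sum_le_sum hterm
    rw [Finset.sum_const, Finset.card_range, nsmul_eq_mul] at hs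
    have h2 := n_pi hk hN.nk
    have h3 : k ^ (-0.009 : ℝ) ≤ k ^ (-0.007 : ℝ) := rle hk (by norm_num)
    have h4 := mul_le_mul_of_nonneg_left h3 hl
    have h5 : (324000000 : ℝ) * (Real.log k ^ 2 * k ^ (-0.007 : ℝ)) ≤ k ^ (-0.002 : ℝ) :=
      cl hk ((by norm_num : (324000000 : ℝ) ≤ 1000000000).trans (c9 hk)) (by norm_num)
    have h6 : 0 ≤ Real.log k ^ 2 * k ^ (-0.007 : ℝ) := mul_nonneg hl (hp _).le
    push_cast at hs
    have h7 : 200 * (n : ℝ) * kπ k 11 = 200 * (n * kπ k 11) := by ring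
    rw [h7]
    linarith
  · -- exp
    have h1 : k ^ (0.01 : ℝ) ≤ kX k / (2 * kwm k) := by
      have hw : 0 < kwm k := hp _
      rw [le_div_iff₀ (by positivity)]
      unfold kX kwm
      have h2 : (2 : ℝ) * k ^ (-0.98 : ℝ) ≤ k ^ (-0.002 : ℝ) := cm' hk (by norm_num) (by norm_num)
      have h3 : k ^ (0.01 : ℝ) * k ^ (-0.99 : ℝ) = k ^ (-0.98 : ℝ) := by rw [radd hk]; norm_num
      rw [← h3] at h2
      linarith
    refine (Real.exp_le_exp.2 (neg_le_neg h1)).trans ?_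
    unfold kεB
    apply expl hk
    · linarith
    · positivity
    · norm_num
  · -- deg
    unfold kεB
    have hL : (kL k : ℝ) ≤ 2 * k ^ (2 : ℝ) := by
      have e1 := tau_le hk 11
      have e2 : kex 11 = 1.012 := by unfold kex; simp
      rw [e2] at e1
      have e3 : k ^ (1.012 : ℝ) ≤ k ^ (2 : ℝ) := rle hk (by norm_num)
      unfold kL
      linarith
    have hT : (kT k : ℝ) ^ 2 ≤ k ^ (1 : ℝ) := by
      have e1 := pow_le_pow_left₀ (Nat.cast_nonneg _) (T_le hk) 2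
      have e2 : (k ^ (0.476 : ℝ)) ^ 2 ≤ k ^ (1 : ℝ) := by
        rw [pow_two, radd hk]
        exact rle hk (by norm_num)
      exact e1.trans e2
    have hB1 := B1_le hk
    have hB10 : (0 : ℝ) ≤ (kB1 k B : ℝ) := Nat.cast_nonneg _
    have hL0 : (0 : ℝ) ≤ kL k := Nat.cast_nonneg _
    have hnk : (n : ℝ) ≤ k ^ (1 : ℝ) := by rw [Real.rpow_one]; exact hN.nk
    have a1 : ((((11 : ℕ) : ℝ) + 1) * n + kL k + (24 * n * kB1 k B : ℕ)) ≤
        62 * k ^ ((B : ℝ) + 2) := by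
      have e1 : (n : ℝ) * kB1 k B ≤ 2 * k ^ ((B : ℝ) + 2) := by
        calc (n : ℝ) * kB1 k B ≤ k ^ (1 : ℝ) * (2 * k ^ (B : ℝ)) :=
              mul_le_mul hnk hB1 hB10 (hp _).le
          _ = 2 * (k ^ (1 : ℝ) * k ^ (B : ℝ)) := by ring
          _ ≤ _ := by
              rw [radd hk]
              apply mul_le_mul_of_nonneg_left _ (by norm_num)
              exact rle hk (by linarith)
      have e2 : k ^ (1 : ℝ) ≤ k ^ ((B : ℝ) + 2) := rle hk (by linarith)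
      have e3 : k ^ (2 : ℝ) ≤ k ^ ((B : ℝ) + 2) := rle hk (by linarith)
      push_cast
      nlinarith
    have a2 : (2 + kL k + ((kK B : ℕ) : ℝ) * (4 * kL k + 5) * (kT k : ℝ) ^ 2 +
        (2 * kB1 k B : ℕ)) ≤ 1310 * ((B : ℝ) + 1) * k ^ ((B : ℝ) + 3) := by
      have e0 : ((kK B : ℕ) : ℝ) = 100 * ((B : ℝ) + 1) := by unfold kK; push_cast; ring
      have e1 : (4 * (kL k : ℝ) + 5) * (kT k : ℝ) ^ 2 ≤ 13 * k ^ ((B : ℝ) + 3) := by
        have g1 : 4 * (kL k : ℝ) + 5 ≤ 13 * k ^ (2 : ℝ) := by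
          have := rone hk (a := 2) (by norm_num)
          linarith
        calc (4 * (kL k : ℝ) + 5) * (kT k : ℝ) ^ 2 ≤ (13 * k ^ (2 : ℝ)) * k ^ (1 : ℝ) :=
              mul_le_mul g1 hT (by positivity) (by positivity)
          _ = 13 * (k ^ (2 : ℝ) * k ^ (1 : ℝ)) := by ring
          _ ≤ _ := by
              rw [radd hk]
              apply mul_le_mul_of_nonneg_left _ (by norm_num)
              exact rle hk (by linarith)
      have e2 : k ^ (2 : ℝ) ≤ k ^ ((B : ℝ) + 3) := rle hk (by linarith)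
      have e3 : k ^ (B : ℝ) ≤ k ^ ((B : ℝ) + 3) := rle hk (by linarith)
      have e4 : 1 ≤ k ^ ((B : ℝ) + 3) := rone hk (by linarith)
      have e5 : ((kK B : ℕ) : ℝ) * (4 * kL k + 5) * (kT k : ℝ) ^ 2 ≤
          1300 * ((B : ℝ) + 1) * k ^ ((B : ℝ) + 3) := by
        rw [e0]
        have := mul_le_mul_of_nonneg_left e1 (by positivity : 0 ≤ 100 * ((B : ℝ) + 1))
        linarith
      have e6 : 0 ≤ (B : ℝ) * k ^ ((B : ℝ) + 3) := mul_nonneg hB0 (hp _).le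
      push_cast
      linarith
    have hx := hp (-(60 * ((B : ℝ) + 1)))
    have a4 : ((((11 : ℕ) : ℝ) + 1) * n + kL k + (24 * n * kB1 k B : ℕ)) *
        (2 + kL k + ((kK B : ℕ) : ℝ) * (4 * kL k + 5) * (kT k : ℝ) ^ 2 + (2 * kB1 k B : ℕ)) ≤
        (62 * k ^ ((B : ℝ) + 2)) * (1310 * ((B : ℝ) + 1) * k ^ ((B : ℝ) + 3)) :=
      mul_le_mul a1 a2 (by positivity) (by positivity)
    have a5 := mul_le_mul_of_nonneg_left a4 hx.le
    have a6 : (324880 * ((B : ℝ) + 1)) *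
        k ^ (-(60 * ((B : ℝ) + 1)) + (((B : ℝ) + 2) + ((B : ℝ) + 3))) ≤ k ^ (0 : ℝ) :=
      cm hk (by linarith) (by linarith)
    rw [Real.rpow_zero, ← radd hk, ← radd hk] at a6
    calc 4 * k ^ (-(60 * ((B : ℝ) + 1))) * ((((11 : ℕ) : ℝ) + 1) * n + kL k +
          (24 * n * kB1 k B : ℕ)) * (2 + kL k + ((kK B : ℕ) : ℝ) * (4 * kL k + 5) *
          (kT k : ℝ) ^ 2 + (2 * kB1 k B : ℕ)) =
        4 * (k ^ (-(60 * ((B : ℝ) + 1))) * (((((11 : ℕ) : ℝ) + 1) * n + kL k +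
          (24 * n * kB1 k B : ℕ)) * (2 + kL k + ((kK B : ℕ) : ℝ) * (4 * kL k + 5) *
          (kT k : ℝ) ^ 2 + (2 * kB1 k B : ℕ)))) := by ring
      _ ≤ 4 * (k ^ (-(60 * ((B : ℝ) + 1))) * ((62 * k ^ ((B : ℝ) + 2)) *
          (1310 * ((B : ℝ) + 1) * k ^ ((B : ℝ) + 3)))) := by linarith
      _ = (324880 * ((B : ℝ) + 1)) * (k ^ (-(60 * ((B : ℝ) + 1))) *
          (k ^ ((B : ℝ) + 2) * k ^ ((B : ℝ) + 3))) := by ring
      _ ≤ 1 := a6

end Pool.Agent.C4K.H79
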